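import Pool.Agent.J4H23.VD.Stm
import Pool.Agent.J4H98.SB.Len

/-! # Project VD of helper23: (ACO), the algorithm is correct (helper42) -/

set_option autoImplicit false

namespace Pool.Agent.J4H42.VD

open Finset Pool.Agent.NPC Pool.Agent.H49R2.PC Pool.Agent.J4H63.DB Pool.Agent.J4H23.SB Pool.Agent.J4H23.VD
open Pool.Agent.J4H98.SB

theorem before_iff (p v : ℕ × ℕ) : before p v = true ↔ v.2 < p.2 ∨ (p.2 = v.2 ∧ p.1 < v.1) := by
  simp [before]

/-- the rank -/
def rk (W : Finset (ℕ × ℕ)) (v : ℕ × ℕ) : ℕ := (W.filter (fun p => before p v = true)).card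

theorem rk_lt {W : Finset (ℕ × ℕ)} {u v : ℕ × ℕ} (hu : u ∈ W) (h : before u v = true) : rk W u < rk W v := by
  apply Finset.card_lt_card
  rw [Finset.ssubset_iff_of_subset]
  · refine ⟨u, mem_filter.2 ⟨hu, h⟩, ?_⟩
    rw [mem_filter, before_iff]
    rintro ⟨-, h1 | h1⟩ <;> omega
  · intro p hp
    rw [mem_filter] at hp ⊢
    refine ⟨hp.1, ?_⟩
    have h1 := hp.2
    rw [before_iff] at h1 h ⊢
    omega

theorem rk_inj {W : Finset (ℕ × ℕ)} (hW : ∀ u ∈ W, ∀ v ∈ W, u.1 = v.1 → u = v) :
    ∀ u ∈ W, ∀ v ∈ W, rk W u = rk W v → u = v := by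
  intro u hu v hv h
  by_contra hne
  have h1 : u.1 ≠ v.1 := fun h1 => hne (hW u hu v hv h1)
  have h2 : before u v = true ∨ before v u = true := by
    rw [before_iff, before_iff]
    omega
  rcases h2 with h2 | h2
  · have := rk_lt hu h2; omega
  · have := rk_lt hv h2; omega

theorem rk_bd {W : Finset (ℕ × ℕ)} {v : ℕ × ℕ} (hv : v ∈ W) : rk W v < W.card := by
  apply Finset.card_lt_card
  rw [Finset.ssubset_iff_of_subset (Finset.filter_subset _ _)]
  refine ⟨v, hv, ?_⟩
  rw [mem_filter, before_iff]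
  rintro ⟨-, h1 | h1⟩ <;> omega

theorem rk_image {W : Finset (ℕ × ℕ)} (hW : ∀ u ∈ W, ∀ v ∈ W, u.1 = v.1 → u = v) :
    W.image (rk W) = range W.card := by
  apply Finset.eq_of_subset_of_card_le
  · intro x hx
    obtain ⟨v, hv, rfl⟩ := mem_image.1 hx
    exact mem_range.2 (rk_bd hv)
  · rw [card_range, card_image_of_injOn]
    intro u hu v hv h
    exact rk_inj hW u hu v hv h

theorem card_F {W : Finset (ℕ × ℕ)} (hW : ∀ u ∈ W, ∀ v ∈ W, u.1 = v.1 → u = v) (K : ℕ) :
    (W.filter (fun v => rk W v < K)).card = min W.card K := by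
  have h1 : ((W.filter (fun v => rk W v < K)).image (rk W)) = range (min W.card K) := by
    ext x
    constructor
    · intro hx
      obtain ⟨v, hv, rfl⟩ := mem_image.1 hx
      rw [mem_filter] at hv
      exact mem_range.2 (lt_min (rk_bd hv.1) hv.2)
    · intro hx
      rw [mem_range, lt_min_iff] at hx
      have h2 : x ∈ W.image (rk W) := by rw [rk_image hW]; exact mem_range.2 hx.1
      obtain ⟨v, hv, rfl⟩ := mem_image.1 h2
      exact mem_image.2 ⟨v, mem_filter.2 ⟨hv, hx.2⟩, rfl⟩
  rw [← card_range (min W.card K), ← h1, card_image_of_injOn]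
  intro u hu v hv h
  rw [mem_coe, mem_filter] at hu hv
  exact rk_inj hW u hu.1 v hv.1 h

theorem rk_list {l : List (ℕ × ℕ)} (hl : l.Nodup) (v : ℕ × ℕ) :
    (l.filter (fun p => before p v)).length = rk l.toFinset v := by
  unfold rk
  rw [← List.toFinset_filter, List.toFinset_card_of_nodup (hl.filter _)]

/-- every subset of `L` is enumerated -/
theorem en_all (E : List (ℕ × ℕ)) (t : ℕ) (P : ℕ → Prop) : ∀ (L : List ℕ) (s : List ℕ × List ℕ),
    s.1.length + L.length ≤ t → ∃ s' ∈ en E t L s, ∀ x, x ∈ s'.1 ↔ x ∈ s.1 ∨ (x ∈ L ∧ P x) := by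
  intro L
  induction L with
  | nil =>
    intro s _
    exact ⟨s, by rw [en_nil]; simp, by simp⟩
  | cons v L ih =>
    intro s hs
    rw [List.length_cons] at hs
    rw [en_cons_lt (by omega)]
    by_cases hv : P v
    · obtain ⟨s', h1, h2⟩ := ih (v :: s.1, nonnbrs E v s.2) (by simp only [List.length_cons]; omega)
      refine ⟨s', List.mem_append_right _ h1, fun x => ?_⟩
      rw [h2 x]
      simp only [List.mem_cons]
      constructor
      · rintro ((rfl | h) | h)
        · exact Or.inr ⟨Or.inl rfl, hv⟩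
        · exact Or.inl h
        · exact Or.inr ⟨Or.inr h.1, h.2⟩
      · rintro (h | ⟨rfl | h, h3⟩)
        · exact Or.inl (Or.inr h)
        · exact Or.inl (Or.inl rfl)
        · exact Or.inr ⟨h, h3⟩
    · obtain ⟨s', h1, h2⟩ := ih s (by omega)
      refine ⟨s', List.mem_append_left _ h1, fun x => ?_⟩
      rw [h2 x]
      simp only [List.mem_cons]
      constructor
      · rintro (h | h)
        · exact Or.inl h
        · exact Or.inr ⟨Or.inr h.1, h.2⟩
      · rintro (h | ⟨rfl | h, h3⟩)
        · exact Or.inl h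
        · exact absurd h3 hv
        · exact Or.inr ⟨h, h3⟩

theorem wgt_eq {G : WG} (hl : G.1.Nodup) (C : List ℕ) :
    wgt G C = ∑ p ∈ G.1.toFinset.filter (fun p => p.1 ∈ C), p.2 := by
  unfold wgt
  have h1 : G.1.toFinset.filter (fun p => p.1 ∈ C) = (G.1.filter (fun p => decide (p.1 ∈ C))).toFinset := by
    rw [List.toFinset_filter]
    simp
  rw [h1, List.sum_toFinset _ (hl.filter _)]

theorem algV_spec {G : WG} {K : ℕ} (h : cands G K ≠ []) :
    algV G K ∈ cands G K ∧ ∀ D ∈ cands G K, wgt G (algV G K) ≤ wgt G D := by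
  set cs := cands G K with hcs
  have hne : cs.toFinset.Nonempty := by
    rw [List.toFinset_nonempty_iff]
    exact h
  obtain ⟨C, hC, hmin⟩ := Finset.exists_min_image cs.toFinset (wgt G) hne
  rw [List.mem_toFinset] at hC
  have h1 : C ∈ cs.filter (fun C => cs.all (fun D => decide (wgt G C ≤ wgt G D))) := by
    rw [List.mem_filter]
    refine ⟨hC, ?_⟩
    rw [List.all_eq_true]
    intro D hD
    exact decide_eq_true (hmin D (List.mem_toFinset.2 hD))
  have h2 : algV G K ∈ cs.filter (fun C => cs.all (fun D => decide (wgt G C ≤ wgt G D))) := by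
    unfold algV
    rw [← hcs]
    cases hcase : cs.filter (fun C => cs.all (fun D => decide (wgt G C ≤ wgt G D))) with
    | nil => rw [hcase] at h1; simp at h1
    | cons a l => simp
  rw [List.mem_filter, List.all_eq_true] at h2
  exact ⟨h2.1, fun D hD => of_decide_eq_true (h2.2 D hD)⟩

theorem top_mem {G : WG} (hl : G.1.Nodup) (hW : ∀ u ∈ G.1.toFinset, ∀ v ∈ G.1.toFinset, u.1 = v.1 → u = v) (K : ℕ) (x : ℕ) :
    x ∈ top G K ↔ ∃ v ∈ G.1.toFinset, rk G.1.toFinset v < K ∧ v.1 = x := by
  unfold top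
  have h1 : (G.1.filter (fun v => decide ((G.1.filter (fun p => before p v)).length < K))) =
      G.1.filter (fun v => decide (rk G.1.toFinset v < K)) := by
    apply List.filter_congr
    intro v _
    rw [rk_list hl]
  have h2 : (G.1.filter (fun v => decide (rk G.1.toFinset v < K))).length ≤ K := by
    rw [← List.toFinset_card_of_nodup (hl.filter _), List.toFinset_filter]
    have := card_F hW K
    simp only [decide_eq_true_eq]
    rw [this]
    exact min_le_right _ _
  rw [h1, List.take_of_length_le (by rw [List.length_map]; exact h2), List.mem_map]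
  constructor
  · rintro ⟨v, hv, rfl⟩
    rw [List.mem_filter] at hv
    exact ⟨v, List.mem_toFinset.2 hv.1, of_decide_eq_true hv.2, rfl⟩
  · rintro ⟨v, hv, h3, rfl⟩
    exact ⟨v, List.mem_filter.2 ⟨List.mem_toFinset.1 hv, decide_eq_true h3⟩, rfl⟩

theorem t_ACO : S_ACO := by
  intro G L N K hG hN hK hI
  classical
  obtain ⟨hnd, hE⟩ := hG
  have hl : G.1.Nodup := List.Nodup.of_map _ hnd
  set W : Finset (ℕ × ℕ) := G.1.toFinset with hWdef
  have hW : ∀ u ∈ W, ∀ v ∈ W, u.1 = v.1 → u = v := by
    intro u hu v hv h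
    exact List.inj_on_of_nodup_map hnd (List.mem_toFinset.1 hu) (List.mem_toFinset.1 hv) h
  -- the candidate of a cover
  have hcand : ∀ D : List ℕ, IsCover G D → ∃ C ∈ cands G K, ∀ p ∈ W, p.1 ∈ C ↔ ¬ (rk W p < K ∧ p.1 ∉ D) := by
    intro D hD
    obtain ⟨s', h1, h2⟩ := en_all [] (top G K).length (fun x => x ∉ D) (top G K) ([], []) (by simp)
    have h3 : ∀ x, x ∈ s'.1 ↔ x ∈ top G K ∧ x ∉ D := by
      intro x
      rw [h2 x]
      simp
    refine ⟨(vs G).filter (fun v => !decide (v ∈ s'.1)), ?_, ?_⟩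
    · unfold cands
      rw [List.mem_filter]
      refine ⟨List.mem_map.2 ⟨s', by rw [enum_eq]; exact h1, rfl⟩, ?_⟩
      rw [List.all_eq_true]
      intro e he
      obtain ⟨h4, h5, -⟩ := hE e he
      rw [Bool.or_eq_true, decide_eq_true_eq, decide_eq_true_eq, List.mem_filter, List.mem_filter]
      rcases hD e he with h6 | h6
      · left
        refine ⟨h4, ?_⟩
        simp only [Bool.not_eq_true', decide_eq_false_iff_not]
        exact fun h7 => ((h3 _).1 h7).2 h6
      · right
        refine ⟨h5, ?_⟩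
        simp only [Bool.not_eq_true', decide_eq_false_iff_not]
        exact fun h7 => ((h3 _).1 h7).2 h6
    · intro p hp
      have hpv : p.1 ∈ vs G := List.mem_map.2 ⟨p, List.mem_toFinset.1 hp, rfl⟩
      rw [List.mem_filter]
      simp only [Bool.not_eq_true', decide_eq_false_iff_not]
      rw [h3]
      constructor
      · rintro ⟨-, h4⟩ ⟨h5, h6⟩
        exact h4 ⟨(top_mem hl hW K _).2 ⟨p, hp, h5, rfl⟩, h6⟩
      · intro h4
        refine ⟨hpv, ?_⟩
        rintro ⟨h5, h6⟩
        obtain ⟨v, hv, h7, h8⟩ := (top_mem hl hW K _).1 h5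
        have h9 : v = p := hW v hv p hp h8
        rw [h9] at h7
        exact h4 ⟨h7, h6⟩
  -- the whole vertex set is a cover
  have hne : cands G K ≠ [] := by
    obtain ⟨C, hC, -⟩ := hcand (vs G) (fun e he => Or.inl (hE e he).1)
    intro h
    rw [h] at hC
    simp at hC
  obtain ⟨hmem, hmin⟩ := algV_spec hne
  refine ⟨?_, ?_⟩
  · unfold cands at hmem
    rw [List.mem_filter, List.all_eq_true] at hmem
    intro e he
    have := hmem.2 e he
    rw [Bool.or_eq_true, decide_eq_true_eq, decide_eq_true_eq] at this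
    exact this
  · intro D hD
    obtain ⟨C, hC, hCm⟩ := hcand D hD
    have h1 := hmin C hC
    -- the two parts
    set A : Finset (ℕ × ℕ) := W.filter (fun p => p.1 ∉ D) with hA
    set F : Finset (ℕ × ℕ) := W.filter (fun p => rk W p < K) with hF
    have hwC : wgt G C = wgt G D + ∑ p ∈ A \ F, p.2 := by
      rw [wgt_eq hl, wgt_eq hl, ← Finset.sum_union]
      · apply Finset.sum_congr _ (fun _ _ => rfl)
        ext p
        rw [mem_filter, mem_union, mem_filter, mem_sdiff, hA, hF, mem_filter, mem_filter]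
        constructor
        · rintro ⟨h2, h3⟩
          have h4 := (hCm p h2).1 h3
          by_cases h5 : p.1 ∈ D
          · exact Or.inl ⟨h2, h5⟩
          · exact Or.inr ⟨⟨h2, h5⟩, fun h6 => h4 ⟨h6.2, h5⟩⟩
        · rintro (⟨h2, h3⟩ | ⟨⟨h2, h3⟩, h4⟩)
          · exact ⟨h2, (hCm p h2).2 (fun h5 => h5.2 h3)⟩
          · exact ⟨h2, (hCm p h2).2 (fun h5 => h4 ⟨h2, h5.1⟩)⟩
      · rw [Finset.disjoint_left]
        intro p hp hp'
        rw [mem_filter] at hp
        rw [mem_sdiff, hA, mem_filter] at hp'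
        exact hp'.1.2 hp.2
    have hAL : A.card ≤ L := by
      have h2 := hI (A.image Prod.fst) ?_ ?_
      · rw [card_image_of_injOn] at h2
        · exact h2
        · intro u hu v hv h
          rw [mem_coe, hA, mem_filter] at hu hv
          exact hW u hu.1 v hv.1 h
      · intro x hx
        obtain ⟨p, hp, rfl⟩ := mem_image.1 hx
        rw [hA, mem_filter] at hp
        exact List.mem_toFinset.2 (List.mem_map.2 ⟨p, List.mem_toFinset.1 hp.1, rfl⟩)
      · rintro e he ⟨h3, h4⟩
        obtain ⟨p, hp, hp'⟩ := mem_image.1 h3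
        obtain ⟨q, hq, hq'⟩ := mem_image.1 h4
        rw [hA, mem_filter, hp'] at hp
        rw [hA, mem_filter, hq'] at hq
        rcases hD e he with h5 | h5
        · exact hp.2 h5
        · exact hq.2 h5
    have hkey : ∀ p ∈ A \ F, L * N * p.2 ≤ wgt G D := by
      intro p hp
      rw [mem_sdiff] at hp
      have hpW : p ∈ W := (mem_filter.1 hp.1).1
      have hpK : K ≤ rk W p := by
        by_contra h2
        exact hp.2 (mem_filter.2 ⟨hpW, by omega⟩)
      have hFc : F.card = K := by
        rw [hF, card_F hW K]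
        have := rk_bd hpW
        omega
      have hge : ∀ u ∈ F, p.2 ≤ u.2 := by
        intro u hu
        rw [hF, mem_filter] at hu
        by_contra h2
        have h3 : before p u = true := by rw [before_iff]; left; omega
        have := rk_lt hpW h3
        omega
      have hsd : L * N ≤ (F \ A).card := by
        have h2 : F.card ≤ (F \ A).card + A.card := by
          have := Finset.card_le_card_sdiff_add_card (s := F) (t := A)
          omega
        have h3 : L * (N + 1) = L * N + L := by ring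
        omega
      have hsub : F \ A ⊆ W.filter (fun p => p.1 ∈ D) := by
        intro u hu
        rw [mem_sdiff, hF, hA, mem_filter, mem_filter] at hu
        rw [mem_filter]
        refine ⟨hu.1.1, ?_⟩
        by_contra h2
        exact hu.2 ⟨hu.1.1, h2⟩
      calc L * N * p.2 ≤ (F \ A).card * p.2 := Nat.mul_le_mul_right _ hsd
        _ = ∑ u ∈ F \ A, p.2 := by rw [Finset.sum_const, smul_eq_mul]
        _ ≤ ∑ u ∈ F \ A, u.2 := Finset.sum_le_sum (fun u hu => hge u (mem_sdiff.1 hu).1)
        _ ≤ ∑ u ∈ W.filter (fun p => p.1 ∈ D), u.2 := Finset.sum_le_sum_of_subset hsub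
        _ = wgt G D := (wgt_eq hl D).symm
    have hsum : N * ∑ p ∈ A \ F, p.2 ≤ wgt G D := by
      rcases Nat.eq_zero_or_pos L with hL | hL
      · have h2 : A = ∅ := by
          rw [← Finset.card_eq_zero]
          omega
        rw [h2]
        simp
      · have h2 : ∑ p ∈ A \ F, (L * N * p.2) ≤ ∑ p ∈ A \ F, wgt G D := Finset.sum_le_sum hkey
        rw [Finset.sum_const, smul_eq_mul, ← Finset.mul_sum] at h2
        have h3 : (A \ F).card ≤ L := (Finset.card_le_card Finset.sdiff_subset).trans hAL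
        have h4 : L * (N * ∑ p ∈ A \ F, p.2) ≤ L * wgt G D := by
          calc L * (N * ∑ p ∈ A \ F, p.2) = L * N * ∑ p ∈ A \ F, p.2 := by ring
            _ ≤ (A \ F).card * wgt G D := h2
            _ ≤ L * wgt G D := Nat.mul_le_mul_right _ h3
        exact Nat.le_of_mul_le_mul_left h4 hL
    have hNr : (1 : ℝ) ≤ N := by exact_mod_cast hN
    have h5 : (wgt G (algV G K) : ℝ) ≤ wgt G D + (∑ p ∈ A \ F, p.2 : ℕ) := by
      rw [hwC] at h1
      exact_mod_cast h1
    have h6 : (N : ℝ) * (∑ p ∈ A \ F, p.2 : ℕ) ≤ wgt G D := by exact_mod_cast hsum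
    have h7 : ((∑ p ∈ A \ F, p.2 : ℕ) : ℝ) ≤ (wgt G D : ℝ) / N := by
      rw [le_div_iff₀ (by linarith)]
      linarith
    calc (wgt G (algV G K) : ℝ) ≤ wgt G D + (wgt G D : ℝ) / N := by linarith
      _ = (1 + 1 / N) * wgt G D := by ring

end Pool.Agent.J4H42.VD
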